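import Pool.Agent.H68.RT.LowP
import Pool.Graph.R_pool_sql_team_seeded_2aa45f1a.Results.MP_51fc19_nt.ThreeTermSystems

/-!
# MP_51fc19_nt: the regulator of regular arithmetic schemes and sections of the cones over `Gr(2, n)`

For every separated scheme `X` of finite type over `ℤ` and `k ∈ ℤ` let

* `A k X = CH_0(X, k) ⊗ ℝ` (higher Chow groups, cycles of dimension `k` on `X × Δ^k`);
* `B k X = H_k` of the homotopy fibre of the map from the real Deligne homology of weight `0` of
  `X_ℝ` to the `ℝ`-dual of the cohomology with compact supports `H_c^*(X, ℚ(0))` of weight `0`;
* `ρ k X : A k X → B k X` the regulator.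

For `X` regular and connected of dimension `d`, proper and flat over `ℤ`: `A k X = M^{2d-k}`, the Deligne
homology of weight `0` is `Dl k X = D^{2d-k}`, and the third group is `Cd X = CH^0(X_ℚ)^*_ℝ`, in one
degree.

Let `F` be one of the following two families of affine schemes over `ℤ`:

* `IsRankTwo`: the schemes of the `m × n` matrices of rank at most two, whose entries at the places of a
  set `Z` are zero, and whose entries at the places of a set `N` are one;
* `IsLines`: the sections of the affine cone over the Grassmannian `Gr(2, n)` in its Plücker embedding by
  equations `p_ij = 0`, `(i, j) ∈ Z`, and `p_ij = 1`, `(i, j) ∈ N`.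

`RegInt Y` says that `Y` is smooth over `ℤ` or over a prime field, and integral or empty.

Let `Coord` be the following family of affine schemes over `ℤ`: the sections of the affine cone over
`Gr(2, n)` by equations `p_ij = 0`, `(i, j) ∈ Z`; their open parts, where `p_ij` is invertible for
`(i, j) ∈ U`; the schemes of the `m × n` matrices of rank at most two with zeros at `Z`. No entry is
prescribed to be one. `Built True Coord X` says that `X` is obtained from these schemes by gluing a closed
and an open part, finitely often.

**Theorem.** (0) *With zeros only the assertion is true.* Assume that the comparison maps are bijective for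
the affine spaces over `ℤ`; this is the theorem of Dirichlet and Borel, as `CH_0(𝔸^n, k)` is a group of
`Spec ℤ` (`K`-theory of `ℤ`). Then they are bijective in all degrees for all `X` with
`Built True Coord X`, for all `m`, `n`, `Z`, `U`, and Q1 holds for all regular connected schemes `X` of this
kind, which are proper and flat over `ℤ`.

*With zeros and ones they decide everything:* (1) For every regular connected scheme `X`, proper and flat over `ℤ`, there is a finite
partition of `X` into locally closed subschemes `Y_l`, regular affine members of the family `F`, such that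
the assertion of Q1 holds for `X`, if the comparison maps are bijective in all degrees for the
`Y_l`.

(2) Let `d` be an integer. The comparison maps are bijective in all degrees for all separated schemes of
finite type over `ℤ` of dimension at most `d`, if and only if this is so for the regular members of the
family `F` of dimension at most `d`; then Q1 holds for all regular connected `X` of dimension at most
`d`, proper and flat over `ℤ`.

(3) The following are equivalent, by transfer and de Jong's theorem on alterations: the assertion of Q1
for all regular connected schemes of dimension at most `d`, which are proper and flat over `ℤ`, together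
with the bijectivity of the comparison maps for the regular connected proper schemes of dimension at most
`d`, which are not flat over `ℤ` (smooth proper varieties over finite fields); the bijectivity of the
comparison maps for the regular members of the family `F` of dimension at most `d`.

Only the localization sequences are used in (1) and (2); the dimension does not change.
-/

set_option autoImplicit false

open CategoryTheory AlgebraicGeometry Pool.Agent.Y116.UV Pool.Agent.Q282.UZ Pool.Agent.Q193.LT
  Pool.Agent.H68.RT Pool.Agent.Results.MP_51fc19_nt.ThreeTermSystems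

universe w

namespace Pool.Agent.Results.MP_51fc19_nt.GrassmannianOfLines

/-- **Regulators and sections of the cones over the Grassmannians of lines.** See the explanations
above. -/
theorem result {T : Theories.{w}} {Reg : Sch ℤ → Prop} {F : Sch ℤ → Prop} (hF : IsFamily F)
    (localization : HasSequences T.P (Equiv.subRight 1))
    (fibre : ∀ X, IsModel Reg X → IsFibre T X) :
    ((∀ n : ℕ, BijAll T.P (aff ℤ (MvPolynomial (Fin n) ℤ))) →
      ∀ X, Built True Coord X → BijAll T.P X ∧ (IsModel Reg X → Q1 T X)) ∧
    (∀ X, IsModel Reg X → ∃ (k : ℕ) (Y : Fin k → Sch ℤ) (f : ∀ l, Y l ⟶ X),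
      (∀ l, F (Y l) ∧ RegInt (Y l)) ∧ (∀ l, IsImmersion (f l).left) ∧
      (∀ x : X.left, ∃! l, x ∈ Set.range (f l).left) ∧ ((∀ l, BijAll T.P (Y l)) → Q1 T X)) ∧
    ∀ d : ℕ,
      ((∀ X, FT True X → topologicalKrullDim X.left ≤ d → BijAll T.P X) ↔
        ∀ Y, F Y → RegInt Y → topologicalKrullDim Y.left ≤ d → BijAll T.P Y) ∧
      ((∀ Y, F Y → RegInt Y → topologicalKrullDim Y.left ≤ d → BijAll T.P Y) →
        ∀ X, IsModel Reg X → topologicalKrullDim X.left ≤ d → Q1 T X) ∧
      (HasFactors T.P → DeJong Reg →
        (((∀ X, IsModel Reg X → topologicalKrullDim X.left ≤ d → Q1 T X) ∧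
          (∀ X, FT True X → IsProper X.hom → Reg X → ¬ Flat X.hom →
            topologicalKrullDim X.left ≤ d → BijAll T.P X)) ↔
          ∀ Y, F Y → RegInt Y → topologicalKrullDim Y.left ≤ d → BijAll T.P Y)) := by
  have hR : Frac ℤ := frac_of_surj (R := ℤ) fun x => ⟨x, rfl⟩
  have hP := glue_all localization
  refine ⟨fun h X hX => ?_, fun X hX => ?_, fun d => ?_⟩
  · have h1 : BijAll T.P X := cel_built (cel_all localization h) hX
    exact ⟨h1, fun hm => (q1_iff (fibre X hm)).mpr h1⟩
  · obtain ⟨k, Y, f, h1, h2, h3, h4⟩ :=
      partition_good (sep := True) hR hF.family generic_regInt X hX.1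
    exact ⟨k, Y, f, h1, h2, h3, fun h => (q1_iff (fibre X hX)).mpr (h4 _ hP h)⟩
  · have h1 := good_iff (sep := True) hR hP (her_dim (R := ℤ) (d : WithBot ℕ∞)) hF.family
      generic_regInt
    have h2 : (∀ Y, F Y → RegInt Y → topologicalKrullDim Y.left ≤ d → BijAll T.P Y) →
        ∀ X, IsModel Reg X → topologicalKrullDim X.left ≤ d → Q1 T X :=
      fun h X hX hd => (q1_iff (fibre X hX)).mpr (h1.mpr h X hX.1 hd)
    refine ⟨h1, h2, fun transfer alterations => ⟨fun h => ?_, fun h => ?_⟩⟩
    · refine h1.mp (dev_alt alterations (alt_all localization transfer) d ?_)
      intro X hX hp hr hd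
      by_cases hf : Flat X.hom
      · exact (q1_iff (fibre X ⟨hX, hp, hr, hf⟩)).mp (h.1 X ⟨hX, hp, hr, hf⟩ hd)
      · exact h.2 X hX hp hr hf hd
    · exact ⟨h2 h, fun X hX _ _ _ hd => h1.mpr h X hX hd⟩

end Pool.Agent.Results.MP_51fc19_nt.GrassmannianOfLines
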