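import Pool.Agent.H55.TH.Rank
import Pool.Agent.H51.TH.Spaces
import Pool.Graph.R_pool_sql_team_seeded_2aa45f1a.Results.MP_51fc19_nt.ThreeTermSystems

/-!
# MP_51fc19_nt: the regulator of arithmetic schemes and matrices with prescribed zeros: rank two and three

For every separated scheme `X` of finite type over `ℤ` and `k ∈ ℤ` let

* `A k X = CH_0(X, k) ⊗ ℝ` (higher Chow groups, cycles of dimension `k` on `X × Δ^k`);
* `B k X = H_k` of the homotopy fibre of the map from the real Deligne homology of weight `0` of
  `X_ℝ` to the `ℝ`-dual of the cohomology with compact supports `H_c^*(X, ℚ(0))` of weight `0`;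
* `ρ k X : A k X → B k X` the regulator.

For `X` regular and connected of dimension `d`, proper and flat over `ℤ`: `A k X = M^{2d-k}`, the Deligne
homology of weight `0` is `Dl k X = D^{2d-k}`, and the third group is `Cd X = CH^0(X_ℚ)^*_ℝ`, in one
degree.

For `r ∈ ℕ` consider the affine schemes over `ℤ` of the `m × n` matrices of rank at most `r` whose entries
at the places of a set `Z` are zero, for all `m`, `n` and `Z` (the equations are the minors with `r + 1`
rows and the entries at the places in `Z`).

**Theorem.** (1) Let `r ∈ {1, 2}`. The comparison maps are bijective in all degrees for all schemes over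
`ℤ` of matrices of rank at most `r` with prescribed zeros if and only if they are bijective for the affine
spaces over `ℤ` (this is the theorem of Borel, for `ℤ` itself the one of Dirichlet; they are not assumed
here). (2) Let `r ≥ 3`, for instance `r = 3`. The following are equivalent: the assertion of Q1 for all
regular connected schemes which are proper and flat over `ℤ`, together with the bijectivity of the
comparison maps for the regular connected proper schemes which are not flat over `ℤ` (smooth proper
varieties over finite fields); the comparison maps are bijective in all degrees for all schemes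
over `ℤ` of matrices of rank at most `r` with prescribed zeros. So rank two is the case of the affine
spaces, and rank three is the general case.

The comparison of zero-cycles is not invariant under affine bundles: only closed-open decompositions and
products with the multiplicative group are used. (1) is proved by cutting along the entries and the
`2 × 2` minors: the parts are configurations of vectors in the plane with prescribed parallel pairs, and
these are built one coordinate at a time (`Pool.Agent.H55.TH.elim_add`).
-/

set_option autoImplicit false

open CategoryTheory AlgebraicGeometry Pool.Agent.Y116.UV Pool.Agent.Q282.UZ Pool.Agent.Q193.LT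
  Pool.Agent.H81.RZ Pool.Agent.Results.MP_51fc19_nt.ThreeTermSystems

universe w

namespace Pool.Agent.Results.MP_51fc19_nt.RankThreeMatrices

/-- **Regulators and matrices with prescribed zeros: rank at most two and rank at most `r ≥ 3`.** See the
explanations above. -/
theorem result {T : Theories.{w}} {Reg : Sch ℤ → Prop}
    (localization : IsLocalPair T.P (Equiv.subRight 1) (Equiv.addRight 1))
    (fibre : ∀ X, IsModel Reg X → IsFibre T X) :
    (∀ r : ℕ, 1 ≤ r → r ≤ 2 →
      (OnRank r (BijAll T.P) ↔ ∀ n : ℕ, BijAll T.P (aff ℤ (MvPolynomial (Fin n) ℤ)))) ∧
    ∀ r : ℕ, 3 ≤ r →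
      (OnRank r (BijAll T.P) ↔ OnAll True (BijAll T.P)) ∧
      (OnRank r (BijAll T.P) → (∀ X, IsModel Reg X → Q1 T X) ∧
        ∀ X, FT True X → IsProper X.hom → Reg X → ¬ Flat X.hom → BijAll T.P X) ∧
      (HasFactors T.P → Alterations Reg →
        (∀ X, IsModel Reg X → Q1 T X) →
        (∀ X, FT True X → IsProper X.hom → Reg X → ¬ Flat X.hom → BijAll T.P X) →
        OnRank r (BijAll T.P)) := by
  refine ⟨fun r h1 h2 => ⟨Pool.Agent.H51.TH.spaces_of_rank (clo_pair localization) h1,
    fun h => Pool.Agent.H55.TH.on_rank (clo_pair localization) h h2⟩, fun r hr => ?_⟩
  have h1 := clo_rk (frac_of_surj (R := ℤ) fun x => ⟨x, rfl⟩) (clo_pair localization) hr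
  refine ⟨h1.symm, fun h => ?_, fun transfer alterations h2 h3 => ?_⟩
  · exact ⟨fun X hX => (q1_iff (fibre X hX)).mpr (h1.mpr h X hX.1),
      fun X hX _ _ _ => h1.mpr h X hX⟩
  · refine h1.mp (alterations _ (alt_pair localization transfer) ?_)
    intro X hX hp hr
    by_cases hf : Flat X.hom
    · exact (q1_iff (fibre X ⟨hX, hp, hr, hf⟩)).mp (h2 X ⟨hX, hp, hr, hf⟩)
    · exact h3 X hX hp hr hf

end Pool.Agent.Results.MP_51fc19_nt.RankThreeMatrices
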