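import Pool.Agent.H38.SA.Fin
import Pool.Agent.H68.RT.Sy8
import Pool.Graph.R_pool_sql_team_seeded_2aa45f1a.Results.MP_51fc19_nt.ThreeTermSystems

/-!
# MP_51fc19_nt: the regulator of regular arithmetic schemes and symmetric matrices of rank three

For every separated scheme `X` of finite type over `ℤ` and `k ∈ ℤ` let

* `A k X = CH_0(X, k) ⊗ ℝ` (higher Chow groups, cycles of dimension `k` on `X × Δ^k`);
* `B k X = H_k` of the homotopy fibre of the map from the real Deligne homology of weight `0` of
  `X_ℝ` to the `ℝ`-dual of the cohomology with compact supports `H_c^*(X, ℚ(0))` of weight `0`;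
* `ρ k X : A k X → B k X` the regulator.

For `X` regular and connected of dimension `d`, proper and flat over `ℤ`: `A k X = M^{2d-k}`, the Deligne
homology of weight `0` is `Dl k X = D^{2d-k}`, and the third group is `Cd X = CH^0(X_ℚ)^*_ℝ`, in one
degree.

For a set `Z` of places of an `n × n` matrix let `S_r(n, Z)` be the affine scheme over `ℤ` of the
symmetric `n × n` matrices of rank at most `r` whose entries at the places in `Z` are zero. Its points over
a field are, up to the orthogonal group of the form, the systems of `n` vectors in a space of dimension `r`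
with a symmetric bilinear form which satisfy the orthogonality relations of the graph `Z` (orthogonal
representations of graphs).

**Theorem.** (0) *Rank two.* The comparison maps are bijective in all degrees for the schemes `S_2(n, Z)`,
for all `n` and `Z`, if and only if they are bijective in all degrees for the affine spaces over `ℤ` and
over `𝔽_2 = ℤ/2` (which is the theorem of Borel, and Quillen for `𝔽_2`; these are not assumed here). The
second family cannot be omitted: a symmetric matrix of rank two with diagonal `0, 0, 0` and invertible
entries at the three other places exists only if `2 = 0`. No invariance under affine bundles is used.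

Let now `r ≥ 3`, for instance `r = 3`.

(1) *Rank three.* For every separated scheme `X` of finite type over `ℤ` there is a finite list of pairs
`(n, Z)`, which depends only on `X` and `r`, such that the comparison maps of `X` are bijective in all
degrees, and (if `X` is regular, connected, proper and flat over `ℤ`) the assertion of Q1 is true for `X`,
as soon as the comparison maps are bijective for the finitely many schemes `S_r(n, Z)` of the list.

(2) The following are equivalent: the assertion of Q1 for all regular connected schemes which are proper and
flat over `ℤ`, together with the bijectivity of the comparison maps for the regular connected proper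
schemes which are not flat over `ℤ` (smooth proper varieties over finite fields); the comparison maps are
bijective in all degrees for the schemes `S_r(n, Z)`, for all `n` and `Z`.

The comparison of zero-cycles is not invariant under affine bundles: only closed-open decompositions and
products with the multiplicative group are used.
-/

set_option autoImplicit false

open CategoryTheory AlgebraicGeometry Pool.Agent.Y116.UV Pool.Agent.Q282.UZ Pool.Agent.Q193.LT
  Pool.Agent.H81.RZ Pool.Agent.H38.SA Pool.Agent.H68.RT
  Pool.Agent.Results.MP_51fc19_nt.ThreeTermSystems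

universe w

namespace Pool.Agent.Results.MP_51fc19_nt.SymmetricRankThree

/-- **Regulators and symmetric matrices of rank at most `r` with prescribed zeros.** See the
explanations above. -/
theorem result (r : ℕ) (hr : 3 ≤ r) :
    (∀ T : Theories.{w}, IsLocalPair T.P (Equiv.subRight 1) (Equiv.addRight 1) →
      (OnSymmetric 2 (BijAll T.P) ↔ (∀ n : ℕ, BijAll T.P (aff ℤ (MvPolynomial (Fin n) ℤ))) ∧
        ∀ n : ℕ, BijAll T.P (aff ℤ (MvPolynomial (Fin n) (ℤ ⧸ Ideal.span {(2 : ℤ)}))))) ∧
    (∀ X : Sch ℤ, FT True X → ∃ L : List (Σ n : ℕ, Finset (Fin n × Fin n)),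
      ∀ T : Theories.{w}, IsLocalPair T.P (Equiv.subRight 1) (Equiv.addRight 1) →
        (∀ c ∈ L, BijAll T.P (aff ℤ (SyRk ℤ r c.2))) →
          BijAll T.P X ∧ (IsFibre T X → Q1 T X)) ∧
    ∀ (T : Theories.{w}) (Reg : Sch ℤ → Prop),
      IsLocalPair T.P (Equiv.subRight 1) (Equiv.addRight 1) →
      (∀ X, IsModel Reg X → IsFibre T X) →
      (OnSymmetric r (BijAll T.P) ↔ OnAll True (BijAll T.P)) ∧
      (OnSymmetric r (BijAll T.P) → (∀ X, IsModel Reg X → Q1 T X) ∧
        ∀ X, FT True X → IsProper X.hom → Reg X → ¬ Flat X.hom → BijAll T.P X) ∧
      (HasFactors T.P → Alterations Reg →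
        (∀ X, IsModel Reg X → Q1 T X) →
        (∀ X, FT True X → IsProper X.hom → Reg X → ¬ Flat X.hom → BijAll T.P X) →
        OnSymmetric r (BijAll T.P)) := by
  have hZ : Frac ℤ := frac_of_surj (R := ℤ) fun x => ⟨x, rfl⟩
  refine ⟨fun T hT => sym_two_iff (clo_pair hT), fun X hX => ?_, fun T Reg localization fibre => ?_⟩
  · obtain ⟨L, hL⟩ := fin_sym hZ hr X hX
    refine ⟨L, fun T hT h => ?_⟩
    have h1 := hL _ (clo_pair hT) h
    exact ⟨h1, fun hf => (q1_iff hf).mpr h1⟩
  · have h1 := clo_sym hZ (clo_pair localization) hr
    refine ⟨h1.symm, fun h => ?_, fun transfer alterations h2 h3 => ?_⟩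
    · exact ⟨fun X hX => (q1_iff (fibre X hX)).mpr (h1.mpr h X hX.1),
        fun X hX _ _ _ => h1.mpr h X hX⟩
    · refine h1.mp (alterations _ (alt_pair localization transfer) ?_)
      intro X hX hp hr
      by_cases hf : Flat X.hom
      · exact (q1_iff (fibre X ⟨hX, hp, hr, hf⟩)).mp (h2 X ⟨hX, hp, hr, hf⟩)
      · exact h3 X hX hp hr hf

end Pool.Agent.Results.MP_51fc19_nt.SymmetricRankThree
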