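import Pool.Agent.H81.RZ.Cell2
import Pool.Agent.H55.TH.Thin
import Pool.Graph.R_pool_sql_team_seeded_2aa45f1a.Results.MP_51fc19_nt.ThreeTermSystems

/-!
# MP_51fc19_nt: the regulator of arithmetic schemes and thin Schubert cells of lines and planes

For every separated scheme `X` of finite type over `ℤ` and `k ∈ ℤ` let

* `A k X = CH_0(X, k) ⊗ ℝ` (higher Chow groups, cycles of dimension `k` on `X × Δ^k`);
* `B k X = H_k` of the homotopy fibre of the map from the real Deligne homology of weight `0` of
  `X_ℝ` to the `ℝ`-dual of the cohomology with compact supports `H_c^*(X, ℚ(0))` of weight `0`;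
* `ρ k X : A k X → B k X` the regulator.

For `X` regular and connected of dimension `d`, proper and flat over `ℤ`: `A k X = M^{2d-k}`, the Deligne
homology of weight `0` is `Dl k X = D^{2d-k}`, and the third group is `Cd X = CH^0(X_ℚ)^*_ℝ`, in one
degree.

The thin Schubert cell over `ℤ` of a set `B` of three-element subsets of the set of columns is the affine
scheme of the matrices `(1 | A)` with three rows, whose maximal minors with the columns in `B` are
invertible, while all the other maximal minors are zero. It is a stratum of the Grassmannian
`Gr(3, 3 + n)` over `ℤ` (Gelfand, Goresky, MacPherson, Serganova), and its fibres are empty if `B` is not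
the set of bases of a matroid.

`Thinr ℤ 2 B` is the same for the matrices `(1 | A)` with two rows, and the Grassmannians `Gr(2, 2 + n)`.

**Theorem.** (1) The comparison maps are bijective in all degrees for the thin Schubert cells over `ℤ` of
the Grassmannians `Gr(2, 2 + n)` if and only if they are bijective for the affine spaces over `ℤ` (this is
the theorem of Borel, for `ℤ` itself the one of Dirichlet; they are not assumed here). (2) The following
are equivalent: the assertion of Q1 for all regular connected schemes which are
proper and flat over `ℤ`, together with the bijectivity of the comparison maps for the regular connected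
proper schemes which are not flat over `ℤ` (smooth proper varieties over finite fields); the comparison
maps are bijective in all degrees for the thin Schubert cells over `ℤ` of the Grassmannians
`Gr(3, 3 + n)`. So `Gr(2, ·)` is the case of the affine spaces, and `Gr(3, ·)` is the general case.

The comparison of zero-cycles is not invariant under affine bundles: only closed-open decompositions and
products with the multiplicative group are used.
-/

set_option autoImplicit false

open CategoryTheory AlgebraicGeometry Pool.Agent.Y116.UV Pool.Agent.Q282.UZ Pool.Agent.Q193.LT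
  Pool.Agent.H81.RZ Pool.Agent.H55.TH Pool.Agent.Results.MP_51fc19_nt.ThreeTermSystems

universe w

namespace Pool.Agent.Results.MP_51fc19_nt.ThinSchubertCells

/-- **Regulators and thin Schubert cells over `ℤ`: `Gr(2, 2 + n)` and `Gr(3, 3 + n)`.** See the
explanations above. -/
theorem result {T : Theories.{w}} {Reg : Sch ℤ → Prop}
    (localization : IsLocalPair T.P (Equiv.subRight 1) (Equiv.addRight 1))
    (fibre : ∀ X, IsModel Reg X → IsFibre T X) :
    (OnThinr 2 (BijAll T.P) ↔ ∀ n : ℕ, BijAll T.P (aff ℤ (MvPolynomial (Fin n) ℤ))) ∧
    (OnThin (BijAll T.P) ↔ OnAll True (BijAll T.P)) ∧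
    (OnThin (BijAll T.P) → (∀ X, IsModel Reg X → Q1 T X) ∧
      ∀ X, FT True X → IsProper X.hom → Reg X → ¬ Flat X.hom → BijAll T.P X) ∧
    (HasFactors T.P → Alterations Reg →
      (∀ X, IsModel Reg X → Q1 T X) →
      (∀ X, FT True X → IsProper X.hom → Reg X → ¬ Flat X.hom → BijAll T.P X) →
      OnThin (BijAll T.P)) := by
  refine ⟨⟨space_of_thin (clo_pair localization), on_thin (clo_pair localization)⟩, ?_⟩
  have h1 := clo_thin (frac_of_surj (R := ℤ) fun x => ⟨x, rfl⟩) (clo_pair localization)
  refine ⟨h1.symm, fun h => ?_, fun transfer alterations h2 h3 => ?_⟩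
  · exact ⟨fun X hX => (q1_iff (fibre X hX)).mpr (h1.mpr h X hX.1),
      fun X hX _ _ _ => h1.mpr h X hX⟩
  · refine h1.mp (alterations _ (alt_pair localization transfer) ?_)
    intro X hX hp hr
    by_cases hf : Flat X.hom
    · exact (q1_iff (fibre X ⟨hX, hp, hr, hf⟩)).mp (h2 X ⟨hX, hp, hr, hf⟩)
    · exact h3 X hX hp hr hf

end Pool.Agent.Results.MP_51fc19_nt.ThinSchubertCells
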